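import Pool.Agent.Helper71.AG2.Goals
import Pool.Agent.Helper45.AG.CEN

set_option autoImplicit false

namespace Pool.Agent.Helper45.AG2

open Pool.Agent.Helper71.AG2

universe u

theorem core : CoreStmt.{u} := by
  intro G _ _ n hn h x y c hxy hx hy hc
  by_contra hc1
  have ho : orderOf c ≠ 1 := fun h1 => hc1 (orderOf_eq_one_iff.1 h1)
  have hdvd : orderOf c ∣ n := orderOf_dvd_of_pow_eq_one hc
  have hr : (orderOf c).minFac.Prime := Nat.minFac_prime ho
  obtain ⟨m, hm⟩ := Nat.minFac_dvd (orderOf c)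
  have hm0 : 0 < m := by
    rcases Nat.eq_zero_or_pos m with h0 | h0
    · rw [h0, mul_zero] at hm
      exact absurd hm (orderOf_pos c).ne'
    · exact h0
  have h1 := Pool.Agent.Helper45.AG.pow_swap hxy hx hy m 1
  rw [mul_one, pow_one] at h1
  have hx' : Commute c x := hx
  have hy' : Commute c y := hy
  have h2 := Pool.Agent.Helper45.AG.eq_one_of_central' hr
    (h _ hr ((Nat.minFac_dvd _).trans hdvd)) h1 ((hx'.pow_right m).pow_left m)
    (hy'.pow_left m) (by rw [← pow_mul, mul_comm, ← hm, pow_orderOf_eq_one])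
  have h3 : orderOf c ∣ m := orderOf_dvd_of_pow_eq_one h2
  have h4 : orderOf c ≤ m := Nat.le_of_dvd hm0 h3
  have h5 : 2 ≤ (orderOf c).minFac := hr.two_le
  have h6 : 2 * m ≤ orderOf c := by
    calc 2 * m ≤ (orderOf c).minFac * m := Nat.mul_le_mul_right m h5
      _ = orderOf c := hm.symm
  omega

end Pool.Agent.Helper45.AG2
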