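import Pool.Agent.Helper71.AG2.Goals

set_option autoImplicit false

namespace Pool.Agent.Helper45.AG2

open Pool.Agent.Helper71.AG2 Pool.Agent.Helper32.AG
open scoped commutatorElement

universe u

theorem Wc_le {G : Type u} [Group G] (V : Subgroup G) [hV : V.Normal] (x y : G) :
    Wc V x y ≤ V := by
  unfold Wc
  rw [Subgroup.closure_le]
  rintro g ⟨v, hv, rfl | rfl⟩
  · rw [commutatorElement_def, mul_assoc, mul_assoc]
    refine mul_mem hv ?_
    rw [← mul_assoc]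
    exact hV.conj_mem _ (inv_mem hv) x
  · rw [commutatorElement_def, mul_assoc, mul_assoc]
    refine mul_mem hv ?_
    rw [← mul_assoc]
    exact hV.conj_mem _ (inv_mem hv) y

theorem mem_Wc_fst {G : Type u} [Group G] {V : Subgroup G} {x y v : G} (hv : v ∈ V) :
    ⁅v, x⁆ ∈ Wc V x y := Subgroup.subset_closure ⟨v, hv, Or.inl rfl⟩

theorem mem_Wc_snd {G : Type u} [Group G] {V : Subgroup G} {x y v : G} (hv : v ∈ V) :
    ⁅v, y⁆ ∈ Wc V x y := Subgroup.subset_closure ⟨v, hv, Or.inr rfl⟩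

/-- commutators with elements which agree modulo `V` -/
theorem comm_congr {G : Type u} [Group G] {V : Subgroup G} [hV : V.Normal]
    (hab : ∀ a ∈ V, ∀ b ∈ V, a * b = b * a) {v z y : G} (hv : v ∈ V) (hz : z ∈ V) :
    ⁅v, z * y⁆ = ⁅v, y⁆ := by
  have h1 : y * v⁻¹ * y⁻¹ ∈ V := hV.conj_mem _ (inv_mem hv) y
  rw [commutatorElement_def, commutatorElement_def]
  have h2 : v * (z * y) * v⁻¹ * (z * y)⁻¹ = v * (z * (y * v⁻¹ * y⁻¹)) * z⁻¹ := by group
  rw [h2, hab z hz _ h1]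
  group

theorem conj_gen {G : Type u} [Group G] {V : Subgroup G} [hV : V.Normal]
    (hab : ∀ a ∈ V, ∀ b ∈ V, a * b = b * a) {g x v : G} (hv : v ∈ V) (hgx : ⁅g, x⁆ ∈ V) :
    g * ⁅v, x⁆ * g⁻¹ = ⁅g * v * g⁻¹, x⁆ := by
  have h1 : g * ⁅v, x⁆ * g⁻¹ = ⁅g * v * g⁻¹, ⁅g, x⁆ * x⁆ := by
    simp only [commutatorElement_def]
    group
  rw [h1, comm_congr hab (hV.conj_mem v hv g) hgx]

theorem conj_Wc {G : Type u} [Group G] {V : Subgroup G} [hV : V.Normal]
    (hab : ∀ a ∈ V, ∀ b ∈ V, a * b = b * a) {g x y : G} (hx : ⁅g, x⁆ ∈ V) (hy : ⁅g, y⁆ ∈ V) :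
    ∀ n ∈ Wc V x y, g * n * g⁻¹ ∈ Wc V x y := by
  have hle : Wc V x y ≤ (Wc V x y).comap (MulAut.conj g).toMonoidHom := by
    conv_lhs => unfold Wc
    rw [Subgroup.closure_le]
    rintro n ⟨v, hv, rfl | rfl⟩
    · rw [SetLike.mem_coe, Subgroup.mem_comap]
      simp only [MulEquiv.toMonoidHom_eq_coe, MonoidHom.coe_coe, MulAut.conj_apply]
      rw [conj_gen hab hv hx]
      exact mem_Wc_fst (hV.conj_mem v hv g)
    · rw [SetLike.mem_coe, Subgroup.mem_comap]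
      simp only [MulEquiv.toMonoidHom_eq_coe, MonoidHom.coe_coe, MulAut.conj_apply]
      rw [conj_gen hab hv hy]
      exact mem_Wc_snd (hV.conj_mem v hv g)
  intro n hn
  exact hle hn

theorem ele (hC : CoreStmt.{u}) (hA : AbpStmt.{u}) : Pool.Agent.Helper71.AG2.EleStmt.{u} := by
  intro G _ _ p hp V hV hVp hAb hab x y hxy
  -- the normalizer of `W`
  have hxx : ⁅x, x⁆ ∈ V := by rw [commutatorElement_self]; exact one_mem V
  have hyy : ⁅y, y⁆ ∈ V := by rw [commutatorElement_self]; exact one_mem V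
  have hyx : ⁅y, x⁆ ∈ V := by rw [← commutatorElement_inv]; exact inv_mem hxy
  let W := Wc V x y
  have hW : Wc V x y ≤ V := Wc_le V x y
  have hxN : x ∈ Subgroup.normalizer (W : Set G) :=
    Subgroup.mem_normalizer_fintype (S := (W : Set G)) (conj_Wc hab hxx hxy)
  have hyN : y ∈ Subgroup.normalizer (W : Set G) :=
    Subgroup.mem_normalizer_fintype (S := (W : Set G)) (conj_Wc hab hyx hyy)
  have hVN : V ≤ Subgroup.normalizer (W : Set G) := by
    intro v hv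
    refine Subgroup.mem_normalizer_fintype (S := (W : Set G)) ?_
    intro n hn
    have : v * n * v⁻¹ = n := by
      rw [hab v hv n (hW hn)]; group
    rw [this]
    exact hn
  let E : Subgroup G := Subgroup.normalizer (W : Set G)
  let f : E →* E ⧸ (W.subgroupOf E) := QuotientGroup.mk' (W.subgroupOf E)
  have hf : Function.Surjective f := QuotientGroup.mk'_surjective _
  have hAE : AbP p E := hA.2 E G p E.subtype E.subtype_injective hAb
  have hAQ : AbP p (E ⧸ (W.subgroupOf E)) := hA.1 E _ p f hp hf hAE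
  -- the elements
  let c : G := x⁻¹ * y⁻¹ * x * y
  have hcV : c ∈ V := by
    have : c = (y * x)⁻¹ * ⁅x, y⁆ * ((y * x)⁻¹)⁻¹ := by
      simp only [c, commutatorElement_def]; group
    rw [this]
    exact hV.conj_mem _ hxy _
  have hcN : c ∈ E := hVN hcV
  have hxy' : x * y = y * x * c := by simp only [c]; group
  have hker : ∀ (g : G) (hg : g ∈ E), f ⟨g, hg⟩ = 1 ↔ g ∈ W := by
    intro g hg
    rw [QuotientGroup.mk'_apply, QuotientGroup.eq_one_iff, Subgroup.mem_subgroupOf]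
  have hcomm : ∀ (g : G) (hg : g ∈ E), ⁅c, g⁆ ∈ W → f ⟨c, hcN⟩ * f ⟨g, hg⟩ =
      f ⟨g, hg⟩ * f ⟨c, hcN⟩ := by
    intro g hg h
    have h1 : f (⟨c, hcN⟩ * ⟨g, hg⟩ * ⟨c, hcN⟩⁻¹ * ⟨g, hg⟩⁻¹) = 1 :=
      (hker _ (mul_mem (mul_mem (mul_mem hcN hg) (inv_mem hcN)) (inv_mem hg))).2 h
    rw [map_mul, map_mul, map_mul, map_inv, map_inv, mul_inv_eq_one, mul_inv_eq_iff_eq_mul] at h1
    exact h1
  obtain ⟨m, hm⟩ := hVp ⟨c, hcV⟩
  have hcm : c ^ (p ^ m) = 1 := by
    have := congrArg Subtype.val hm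
    simpa using this
  have h1 : f ⟨c, hcN⟩ = 1 := by
    refine hC _ (p ^ m) (pow_pos hp.pos m) ?_ (f ⟨x, hxN⟩) (f ⟨y, hyN⟩) _ ?_ ?_ ?_ ?_
    · intro q hq hqd
      have : q = p := (Nat.prime_dvd_prime_iff_eq hq hp).1 (hq.dvd_of_dvd_pow hqd)
      rw [this]
      exact hAQ
    · rw [← map_mul, ← map_mul, ← map_mul]
      congr 1
      exact Subtype.ext hxy'
    · exact hcomm x hxN (mem_Wc_fst hcV)
    · exact hcomm y hyN (mem_Wc_snd hcV)
    · rw [← map_pow]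
      have : (⟨c, hcN⟩ : E) ^ (p ^ m) = 1 := Subtype.ext (by simpa using hcm)
      rw [this, map_one]
  have hcW : c ∈ W := (hker c hcN).1 h1
  have h2 : ⁅x, y⁆ = (y * x) * c * (y * x)⁻¹ := by
    simp only [c, commutatorElement_def]; group
  rw [h2]
  exact (Subgroup.mem_normalizer_iff.1 (mul_mem hyN hxN) c).1 hcW

end Pool.Agent.Helper45.AG2
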